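import Pool.Agent.H484Z.Box.Torus

set_option autoImplicit false

namespace Pool.Agent.Results.MP_16bd3e_an.ARepeller

open Pool.Agent.H484Z.Box

/-- There is a smooth expanding map of the flat four-torus with a repeller whose lower box
dimension is strictly smaller than its upper box dimension. -/
theorem result : ∃ (f : Torus 4 → Torus 4) (Λ : Set (Torus 4)),
    IsSmoothExpanding f ∧ IsRepeller f Λ ∧ lowerBox Λ < upperBox Λ :=
  torus_main

end Pool.Agent.Results.MP_16bd3e_an.ARepeller
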